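import Pool.Agent.Lib.Amenable.Defs

set_option autoImplicit false

namespace Pool.Agent.Lib.Amenable

open Filter Topology Function

/-- finitely additive probability on all subsets -/
structure FAP {X : Type} (μ : Set X → ℝ) : Prop where
  nonneg : ∀ A, 0 ≤ μ A
  univ : μ Set.univ = 1
  add : ∀ A B : Set X, Disjoint A B → μ (A ∪ B) = μ A + μ B

namespace FAP

variable {X : Type} {μ : Set X → ℝ}

lemma empty (h : FAP μ) : μ ∅ = 0 := by
  have := h.add ∅ ∅ (by simp)
  simp only [Set.union_self] at this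
  linarith

lemma split (h : FAP μ) (E A : Set X) : μ E = μ (A ∩ E) + μ (Aᶜ ∩ E) := by
  rw [← h.add _ _ (Set.disjoint_left.mpr (fun x h1 h2 => h2.1 h1.1)), ← Set.union_inter_distrib_right]
  simp

lemma le_one (h : FAP μ) (A : Set X) : μ A ≤ 1 := by
  have h1 := h.split Set.univ A
  have h2 := h.nonneg (Aᶜ ∩ Set.univ)
  rw [h.univ, Set.inter_univ] at h1
  linarith

lemma map (h : FAP μ) {Y : Type} (π : X → Y) : FAP (fun A => μ (π ⁻¹' A)) :=
  ⟨fun _ => h.nonneg _, h.univ, fun A B hAB => by
    rw [Set.preimage_union]; exact h.add _ _ (hAB.preimage π)⟩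

open Classical in
lemma pos (h : FAP μ) {κ : Type} (s : Finset κ) (a : κ → ℝ) (A : κ → Set X) :
    ∀ (E : Set X) (c : ℝ), (∀ x ∈ E, c ≤ ∑ k ∈ s, if x ∈ A k then a k else 0) →
      c * μ E ≤ ∑ k ∈ s, a k * μ (A k ∩ E) := by
  induction s using Finset.induction_on with
  | empty =>
    intro E c hc
    rcases E.eq_empty_or_nonempty with rfl | ⟨x, hx⟩
    · simp [h.empty]
    · simp only [Finset.sum_empty] at hc ⊢
      exact mul_nonpos_of_nonpos_of_nonneg (hc x hx) (h.nonneg E)
  | insert j s hj ih =>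
    intro E c hc
    simp only [Finset.sum_insert hj] at hc ⊢
    have h1 := ih (A j ∩ E) (c - a j) (fun x hx => by
      have := hc x hx.2
      rw [if_pos hx.1] at this
      linarith)
    have h2 := ih ((A j)ᶜ ∩ E) c (fun x hx => by
      have := hc x hx.2
      rw [if_neg hx.1] at this
      linarith)
    have h3 : ∑ k ∈ s, a k * μ (A k ∩ E) =
        ∑ k ∈ s, a k * μ (A k ∩ (A j ∩ E)) + ∑ k ∈ s, a k * μ (A k ∩ ((A j)ᶜ ∩ E)) := by
      rw [← Finset.sum_add_distrib]
      refine Finset.sum_congr rfl (fun k _ => ?_)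
      rw [h.split (A k ∩ E) (A j), Set.inter_left_comm (A j), Set.inter_left_comm (A j)ᶜ]
      ring
    rw [h3, h.split E (A j)]
    linarith

end FAP

/-- integral of a bounded natural valued function -/
noncomputable def integ {X : Type} (μ : Set X → ℝ) (n : ℕ) (g : X → ℕ) : ℝ :=
  ∑ k ∈ Finset.range (n + 1), (k : ℝ) * μ (g ⁻¹' {k})

lemma FAP.lin {X : Type} {μ : Set X → ℝ} (h : FAP μ) {J : Type} [Fintype J] (n : ℕ)
    (g : J → X → ℕ) (hg : ∀ j x, g j x ≤ n) (a : J → ℝ) (c : ℝ)
    (hc : ∀ x, c ≤ ∑ j, a j * g j x) : c ≤ ∑ j, a j * integ μ n (g j) := by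
  classical
  have := h.pos (Finset.univ ×ˢ Finset.range (n + 1)) (fun q : J × ℕ => a q.1 * q.2)
    (fun q => g q.1 ⁻¹' {q.2}) Set.univ c (fun x _ => by
      refine (hc x).trans (le_of_eq ?_)
      rw [Finset.sum_product]
      refine Finset.sum_congr rfl (fun j _ => ?_)
      simp only [Set.mem_preimage, Set.mem_singleton_iff]
      rw [Finset.sum_ite_eq, if_pos (Finset.mem_range.mpr (Nat.lt_succ_of_le (hg j x)))])
  rw [h.univ, mul_one, Finset.sum_product] at this
  refine this.trans (le_of_eq ?_)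
  refine Finset.sum_congr rfl (fun j _ => ?_)
  simp only [integ, Finset.mul_sum, Set.inter_univ, mul_assoc]

variable {G : Type} [Group G]

lemma amenable_iff : IsAmenable G ↔
    ∃ μ : Set G → ℝ, FAP μ ∧ ∀ (g : G) (A : Set G), μ ((fun x => g * x) ⁻¹' A) = μ A := by
  have e : ∀ (g : G) (A : Set G), (fun x => g * x) '' A = (fun x => g⁻¹ * x) ⁻¹' A := by
    intro g A
    simp
  constructor
  · rintro ⟨μ, h1, h2, h3, h4⟩
    exact ⟨μ, ⟨h1, h2, h3⟩, fun g A => by rw [← h4 g⁻¹ A, e, inv_inv]⟩
  · rintro ⟨μ, ⟨h1, h2, h3⟩, h4⟩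
    exact ⟨μ, h1, h2, h3, fun g A => by rw [e, h4]⟩

/-- limits of approximately additive set functions -/
lemma exists_limit {X I : Type} (l : Filter I) [l.NeBot] (m : I → Set X → ℝ)
    (h0 : ∀ i A, 0 ≤ m i A) (h1 : ∀ i A, m i A ≤ 1)
    (hu : Tendsto (fun i => m i Set.univ) l (𝓝 1))
    (ha : ∀ A B, Disjoint A B → Tendsto (fun i => m i (A ∪ B) - m i A - m i B) l (𝓝 0)) :
    ∃ μ : Set X → ℝ, FAP μ ∧
      ∀ A B, Tendsto (fun i => m i A - m i B) l (𝓝 0) → μ A = μ B := by
  let u : Ultrafilter I := Ultrafilter.of l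
  have hul : (u : Filter I) ≤ l := Ultrafilter.of_le l
  have hex : ∀ A, ∃ r : ℝ, Tendsto (fun i => m i A) u (𝓝 r) := by
    intro A
    obtain ⟨r, -, hr⟩ := (isCompact_Icc (a := (0 : ℝ)) (b := 1)).ultrafilter_le_nhds
      (u.map (fun i => m i A)) (by
        rw [Ultrafilter.coe_map, le_principal_iff, mem_map]
        exact univ_mem' (fun i => ⟨h0 i A, h1 i A⟩))
    exact ⟨r, hr⟩
  choose μ hμ using hex
  refine ⟨μ, ⟨fun A => ge_of_tendsto' (hμ A) (fun i => h0 i A),
    tendsto_nhds_unique (hμ _) (hu.mono_left hul), fun A B hAB => ?_⟩, fun A B hAB => ?_⟩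
  · have := tendsto_nhds_unique (((hμ (A ∪ B)).sub (hμ A)).sub (hμ B))
      ((ha A B hAB).mono_left hul)
    linarith
  · have := tendsto_nhds_unique ((hμ A).sub (hμ B)) (hAB.mono_left hul)
    linarith

lemma IsAmenable.of_equivariant {H : Type} [Group H] (hG : IsAmenable G) (π : G → H)
    (hπ : ∀ h : H, ∃ g : G, ∀ x, π (g * x) = h * π x) : IsAmenable H := by
  obtain ⟨μ, h1, h2⟩ := amenable_iff.mp hG
  refine amenable_iff.mpr ⟨_, h1.map π, fun h A => ?_⟩
  obtain ⟨g, hg⟩ := hπ h
  rw [← h2 g (π ⁻¹' A)]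
  congr 1
  ext x
  simp only [Set.mem_preimage, hg]

lemma IsAmenable.of_surjective {H : Type} [Group H] (hG : IsAmenable G) (f : G →* H)
    (hf : Surjective f) : IsAmenable H :=
  hG.of_equivariant f (fun h => by
    obtain ⟨g, rfl⟩ := hf h
    exact ⟨g, fun x => map_mul f g x⟩)

lemma IsAmenable.of_injective {H : Type} [Group H] (hG : IsAmenable G) (f : H →* G)
    (hf : Injective f) : IsAmenable H := by
  let r : G → G := fun x => (Quotient.mk (QuotientGroup.rightRel f.range) x).out
  have hr : ∀ x, ∃ h, f h = x * (r x)⁻¹ := fun x =>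
    QuotientGroup.rightRel_apply.mp (Quotient.exact (Quotient.out_eq
      (Quotient.mk (QuotientGroup.rightRel f.range) x)))
  choose π hπ using hr
  refine hG.of_equivariant π (fun h => ⟨f h, fun x => hf ?_⟩)
  have : r (f h * x) = r x := by
    simp only [r]
    congr 1
    apply Quotient.sound
    exact QuotientGroup.rightRel_apply.mpr ⟨h⁻¹, by simp⟩
  rw [map_mul, hπ, hπ, this, mul_assoc]

lemma IsAmenable.subgroup (hG : IsAmenable G) (H : Subgroup G) : IsAmenable H :=
  hG.of_injective H.subtype H.subtype_injective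

lemma amenable_of_finite [Finite G] : IsAmenable G := by
  have hpos : (0 : ℝ) < Nat.card G := by exact_mod_cast Nat.card_pos
  refine ⟨fun A => (A.ncard : ℝ) / Nat.card G, fun A => by positivity, ?_, fun A B h => ?_,
    fun g A => ?_⟩
  · simp only [Set.ncard_univ]
    exact div_self hpos.ne'
  · simp only [Set.ncard_union_eq h, Nat.cast_add, add_div]
  · simp only [Set.ncard_image_of_injective _ (mul_right_injective g)]

lemma amenable_of_local (h : ∀ S : Finset G, ∃ H : Subgroup G, (∀ g ∈ S, g ∈ H) ∧ IsAmenable H) :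
    IsAmenable G := by
  classical
  choose H hH hA using h
  choose m hm hinv using fun S => amenable_iff.mp (hA S)
  have hF : ∀ S, FAP (fun A : Set G => m S (Subtype.val ⁻¹' A)) := fun S => (hm S).map _
  obtain ⟨μ, h1, h2⟩ := exists_limit (atTop : Filter (Finset G))
    (fun S A => m S (Subtype.val ⁻¹' A)) (fun S => (hF S).nonneg) (fun S => (hF S).le_one)
    (by simp only [(hF _).univ]; exact tendsto_const_nhds)
    (fun A B hAB => by
      simp only [(hF _).add A B hAB, add_sub_cancel_left, sub_self]; exact tendsto_const_nhds)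
  refine amenable_iff.mpr ⟨μ, h1, fun g A => h2 _ _ ?_⟩
  refine tendsto_const_nhds.congr' ?_
  filter_upwards [eventually_ge_atTop ({g} : Finset G)] with S hS
  have hg : g ∈ H S := hH S g (hS (Finset.mem_singleton_self g))
  rw [← hinv S ⟨g, hg⟩ (Subtype.val ⁻¹' A), eq_comm, sub_eq_zero]
  rfl

lemma amenable_int : IsAmenable (Multiplicative ℤ) := by
  classical
  let F : ℕ → Set (Multiplicative ℤ) → ℝ := fun n A =>
    ∑ k ∈ Finset.range (n + 1), if Multiplicative.ofAdd (k : ℤ) ∈ A then 1 else 0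
  have hF : ∀ n, FAP (fun A => F n A / (n + 1)) := by
    intro n
    refine ⟨fun A => div_nonneg (Finset.sum_nonneg (fun k _ => by split_ifs <;> norm_num))
      (by positivity), ?_, fun A B h => ?_⟩
    · simp only [F, Set.mem_univ, if_true, Finset.sum_const, Finset.card_range, nsmul_eq_mul,
        mul_one, Nat.cast_add, Nat.cast_one]
      exact div_self (by positivity)
    · simp only [F]
      rw [← add_div, ← Finset.sum_add_distrib]
      congr 1
      refine Finset.sum_congr rfl (fun k _ => ?_)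
      by_cases h1 : Multiplicative.ofAdd (k : ℤ) ∈ A
      · have := Set.disjoint_left.mp h h1
        simp [h1, this]
      · simp [h1]
  obtain ⟨μ, h1, h2⟩ := exists_limit (atTop : Filter ℕ) (fun n A => F n A / (n + 1))
    (fun S => (hF S).nonneg) (fun S => (hF S).le_one)
    (by simp only [(hF _).univ]; exact tendsto_const_nhds)
    (fun A B hAB => by
      simp only [(hF _).add A B hAB, add_sub_cancel_left, sub_self]; exact tendsto_const_nhds)
  have h3 : ∀ A, μ ((fun x => Multiplicative.ofAdd (1 : ℤ) * x) ⁻¹' A) = μ A := by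
    intro A
    apply h2
    refine squeeze_zero_norm (a := fun n : ℕ => 1 / ((n : ℝ) + 1)) (fun n => ?_)
      tendsto_one_div_add_atTop_nhds_zero_nat
    rw [← sub_div, Real.norm_eq_abs, abs_div, abs_of_pos (by positivity : (0 : ℝ) < n + 1)]
    apply div_le_div_of_nonneg_right _ (by positivity)
    have e1 := Finset.sum_range_succ
      (fun k : ℕ => if Multiplicative.ofAdd (k : ℤ) ∈ A then (1 : ℝ) else 0) (n + 1)
    have e2 := Finset.sum_range_succ'
      (fun k : ℕ => if Multiplicative.ofAdd (k : ℤ) ∈ A then (1 : ℝ) else 0) (n + 1)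
    have e3 : F n ((fun x => Multiplicative.ofAdd (1 : ℤ) * x) ⁻¹' A) =
        ∑ k ∈ Finset.range (n + 1),
          if Multiplicative.ofAdd (((k + 1 : ℕ)) : ℤ) ∈ A then (1 : ℝ) else 0 := by
      refine Finset.sum_congr rfl (fun k _ => ?_)
      simp only [Set.mem_preimage, ← ofAdd_add, Nat.cast_add, Nat.cast_one, add_comm]
    rw [e3]
    simp only [F]
    rw [abs_le]
    split_ifs at e1 e2 <;> constructor <;> linarith
  refine amenable_iff.mpr ⟨μ, h1, fun g => ?_⟩
  have h4 : ∀ k : ℤ, ∀ A, μ ((fun x => Multiplicative.ofAdd k * x) ⁻¹' A) = μ A := by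
    intro k
    induction k using Int.induction_on with
    | zero => intro A; simp
    | succ k ih =>
      intro A
      rw [← ih A, ← h3 ((fun x => Multiplicative.ofAdd (k : ℤ) * x) ⁻¹' A)]
      congr 1
      ext x
      simp only [Set.mem_preimage, ofAdd_add, mul_assoc]
    | pred k ih =>
      intro A
      rw [← ih A, ← h3 ((fun x => Multiplicative.ofAdd (-(k : ℤ) - 1) * x) ⁻¹' A)]
      congr 1
      ext x
      simp only [Set.mem_preimage, ← mul_assoc, ← ofAdd_add, sub_add_cancel]
  exact h4 g.toAdd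

/-- extensions of amenable groups by amenable groups are amenable -/
lemma amenable_of_ker {Q : Type} [Group Q] (f : G →* Q) (hQ : IsAmenable f.range)
    (hN : IsAmenable f.ker) : IsAmenable G := by
  obtain ⟨ν, hν, hνi⟩ := amenable_iff.mp hQ
  obtain ⟨κ, hκ, hκi⟩ := amenable_iff.mp hN
  choose s hs using fun q : f.range => q.2
  let F : Set G → f.range → ℝ := fun A q => κ ((fun n : f.ker => s q * n) ⁻¹' A)
  have hF : ∀ q, FAP (fun A => F A q) := fun q => hκ.map _
  let d : ℕ → Set G → f.range → ℕ := fun n A q => ⌊(n : ℝ) * F A q⌋₊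
  have hd0 : ∀ (n : ℕ) A q, 0 ≤ (n : ℝ) * F A q := fun n A q =>
    mul_nonneg (Nat.cast_nonneg n) ((hF q).nonneg A)
  have hd1 : ∀ n A q, (d n A q : ℝ) ≤ n * F A q := fun n A q => Nat.floor_le (hd0 n A q)
  have hd2 : ∀ n A q, n * F A q < (d n A q : ℝ) + 1 := fun n A q => Nat.lt_floor_add_one _
  have hd3 : ∀ n A q, d n A q ≤ n := fun n A q => by
    have h1 := hd1 n A q
    have h2 : (n : ℝ) * F A q ≤ n := mul_le_of_le_one_right (Nat.cast_nonneg n) ((hF q).le_one A)
    exact_mod_cast h1.trans h2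
  have hlin1 : ∀ n A (a c : ℝ), (∀ q, c ≤ a * d n A q) → c ≤ a * integ ν n (d n A) := by
    intro n A a c h
    simpa using hν.lin (J := Unit) n (fun _ => d n A) (fun _ => hd3 n A) (fun _ => a) c
      (fun q => by simpa using h q)
  obtain ⟨μ, h1, h2⟩ := exists_limit (atTop : Filter ℕ)
    (fun n A => integ ν (n + 1) (d (n + 1) A) / (n + 1)) (fun n A => by
      have := hlin1 (n + 1) A 1 0 (fun q => by positivity)
      exact div_nonneg (by linarith) (by positivity)) (fun n A => by
      have := hlin1 (n + 1) A (-1) (-(n + 1 : ℕ)) (fun q => by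
        have : (d (n + 1) A q : ℝ) ≤ (n + 1 : ℕ) := by exact_mod_cast hd3 (n + 1) A q
        linarith)
      rw [div_le_one (by positivity)]
      push_cast at this
      linarith) (by
      refine tendsto_const_nhds.congr (fun n => ?_)
      have e : ∀ q, d (n + 1) Set.univ q = n + 1 := fun q => by
        simp only [d, (hF q).univ, mul_one, Nat.floor_natCast]
      have a1 := hlin1 (n + 1) Set.univ 1 (n + 1 : ℕ) (fun q => by rw [e]; simp)
      have a2 := hlin1 (n + 1) Set.univ (-1) (-(n + 1 : ℕ)) (fun q => by rw [e]; simp)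
      push_cast at a1 a2
      rw [eq_div_iff (by positivity)]
      linarith) (fun A B hAB => by
      refine squeeze_zero_norm (a := fun n : ℕ => 2 * (1 / ((n : ℝ) + 1))) (fun n => ?_)
        (by simpa using (tendsto_one_div_add_atTop_nhds_zero_nat (𝕜 := ℝ)).const_mul 2)
      rw [← sub_div, ← sub_div, Real.norm_eq_abs, abs_div,
        abs_of_pos (by positivity : (0 : ℝ) < n + 1), mul_one_div]
      apply div_le_div_of_nonneg_right _ (by positivity)
      have a1 := hν.lin (J := Fin 3) (n + 1) ![d (n + 1) (A ∪ B), d (n + 1) A, d (n + 1) B]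
        (fun j => by fin_cases j <;> exact hd3 _ _) ![1, -1, -1] (-2) (fun q => by
          have := hd1 (n + 1) A q; have := hd1 (n + 1) B q; have := hd2 (n + 1) (A ∪ B) q
          have e := (hF q).add A B hAB
          simp only [Fin.sum_univ_three, Matrix.cons_val_zero, Matrix.cons_val_one,
            Matrix.cons_val]
          rw [e, mul_add] at this
          linarith)
      have a2 := hν.lin (J := Fin 3) (n + 1) ![d (n + 1) (A ∪ B), d (n + 1) A, d (n + 1) B]
        (fun j => by fin_cases j <;> exact hd3 _ _) ![-1, 1, 1] (-2) (fun q => by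
          have := hd2 (n + 1) A q; have := hd2 (n + 1) B q; have := hd1 (n + 1) (A ∪ B) q
          have e := (hF q).add A B hAB
          simp only [Fin.sum_univ_three, Matrix.cons_val_zero, Matrix.cons_val_one,
            Matrix.cons_val]
          rw [e, mul_add] at this
          linarith)
      simp only [Fin.sum_univ_three, Matrix.cons_val_zero, Matrix.cons_val_one,
        Matrix.cons_val] at a1 a2
      rw [abs_le]
      constructor <;> linarith)
  refine amenable_iff.mpr ⟨μ, h1, fun g A => h2 _ _ ?_⟩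
  refine tendsto_const_nhds.congr (fun n => ?_)
  let q₀ : f.range := ⟨f g, g, rfl⟩
  have e : ∀ q, F ((fun x => g * x) ⁻¹' A) q = F A (q₀ * q) := by
    intro q
    have hk : (s (q₀ * q))⁻¹ * (g * s q) ∈ f.ker := by
      rw [MonoidHom.mem_ker, map_mul, map_mul, map_inv, hs, hs]
      simp [q₀]
    simp only [F]
    rw [← hκi ⟨_, hk⟩ ((fun n : f.ker => s (q₀ * q) * n) ⁻¹' A)]
    congr 1
    ext x
    simp [mul_assoc]
  rw [eq_comm, sub_eq_zero]
  congr 1
  refine Finset.sum_congr rfl (fun k _ => ?_)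
  rw [← hνi q₀ (d (n + 1) A ⁻¹' {k})]
  congr 2
  ext q
  simp only [Set.mem_preimage, d, e]

lemma IsAmenable.prod {H : Type} [Group H] (hG : IsAmenable G) (hH : IsAmenable H) :
    IsAmenable (G × H) := by
  refine amenable_of_ker (MonoidHom.snd G H) (hH.subgroup _) ?_
  refine hG.of_injective ((MonoidHom.fst G H).comp (MonoidHom.snd G H).ker.subtype) ?_
  rintro ⟨x, hx⟩ ⟨y, hy⟩ h
  exact Subtype.ext (Prod.ext h (hx.trans hy.symm))

lemma IsAmenable.pi_fin (hG : IsAmenable G) (n : ℕ) : IsAmenable (Fin n → G) := by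
  induction n with
  | zero => exact amenable_of_finite
  | succ n ih =>
    refine (hG.prod ih).of_injective
      (MonoidHom.mk' (fun f => (f 0, fun i => f i.succ)) (fun _ _ => rfl)) ?_
    intro f g h
    simp only [MonoidHom.mk'_apply, Prod.mk.injEq] at h
    funext i
    exact Fin.cases h.1 (fun j => congrFun h.2 j) i

lemma IsAmenable.pi (hG : IsAmenable G) (X : Type) [Finite X] : IsAmenable (X → G) := by
  obtain ⟨n, ⟨e⟩⟩ := Finite.exists_equiv_fin X
  refine (hG.pi_fin n).of_injective
    (MonoidHom.mk' (fun f i => f (e.symm i)) (fun _ _ => rfl)) ?_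
  intro f g h
  funext x
  simpa using congrFun h (e x)

/-- the finitely supported functions -/
def finSupp (X G : Type) [Group G] : Subgroup (X → G) where
  carrier := {f | (mulSupport f).Finite}
  one_mem' := by simp
  mul_mem' := fun {a b} ha hb => (ha.union hb).subset (mulSupport_mul a b)
  inv_mem' := fun {a} ha => by simpa [Set.mem_ofPred_eq] using ha

lemma IsAmenable.of_finSupp (hG : IsAmenable G) (X : Type) : IsAmenable (finSupp X G) := by
  classical
  apply amenable_of_local
  intro S
  let Y : Set X := ⋃ f ∈ S, mulSupport (f : X → G)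
  have hY : Y.Finite := S.finite_toSet.biUnion (fun f _ => f.2)
  have : Finite Y := hY
  let H : Subgroup (finSupp X G) :=
    { carrier := {f | ∀ x, x ∉ Y → (f : X → G) x = 1}
      one_mem' := fun _ _ => rfl
      mul_mem' := fun {a b} ha hb x hx => by
        change (a : X → G) x * (b : X → G) x = 1
        rw [ha x hx, hb x hx, mul_one]
      inv_mem' := fun {a} ha x hx => by
        change ((a : X → G) x)⁻¹ = 1
        rw [ha x hx, inv_one] }
  refine ⟨H, fun f hf x hx => ?_, ?_⟩
  · by_contra h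
    exact hx (Set.mem_biUnion hf h)
  · refine (hG.pi Y).of_injective
      (MonoidHom.mk' (fun f y => (f.1 : X → G) y) (fun _ _ => rfl)) ?_
    intro f g h
    apply Subtype.ext
    apply Subtype.ext
    funext x
    by_cases hx : x ∈ Y
    · exact congrFun h ⟨x, hx⟩
    · rw [f.2 x hx, g.2 x hx]

end Pool.Agent.Lib.Amenable
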