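import Mathlib

set_option autoImplicit false

namespace Pool.Agent.Lib.Amenable

/-- A discrete group is amenable if it carries a left invariant finitely additive probability
measure defined on all its subsets. -/
def IsAmenable (G : Type) [Group G] : Prop :=
  ∃ μ : Set G → ℝ, (∀ A, 0 ≤ μ A) ∧ μ Set.univ = 1 ∧
    (∀ A B : Set G, Disjoint A B → μ (A ∪ B) = μ A + μ B) ∧
    ∀ (g : G) (A : Set G), μ ((fun x => g * x) '' A) = μ A

end Pool.Agent.Lib.Amenable
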